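import Pool.Agent.H7.KC.Stmts

/-!
# Row CMB of the board kc15 (MP_fd41b2_co): both boards together
-/

set_option autoImplicit false

open Finset

namespace Pool.KC7

open Pool.Agent.H23.KT Pool.Agent.H46.KW Pool.KQ Pool.GT7 Pool.GU7 Pool.HZ7 Pool.IA7

/-- Row CMB. -/
theorem cmb_thm : CMBStmt := by
  intro hJ hT p w r hw hwp hrp h1 h2
  by_cases hc : w = 1 → 6 ≤ p
  · exact hJ p w r ⟨hw, hwp, hrp, h1, h2, hc⟩
  · have hc' : w = 1 ∧ p < 6 := by
      by_contra hcon
      apply hc
      intro h
      by_contra h'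
      exact hcon ⟨h, by omega⟩
    obtain ⟨rfl, hp6⟩ := hc'
    refine hT p 1 r ⟨hw, hwp, hrp, ?_⟩
    interval_cases p
    · omega
    · omega
    · omega
    · have : r = 4 := by omega
      subst this
      decide
    · have : r = 5 := by omega
      subst this
      decide

end Pool.KC7
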