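import Pool.Agent.H7.KC.Stmts

/-!
# Row WLJ of the board kc15 (MP_fd41b2_co): the local inequality for a good vertex
(a combination of the row WLG of the board jb14, by helper49, and WVT of the board ia13)
-/

set_option autoImplicit false

open Finset

namespace Pool.KC7

open Pool.Agent.H23.KT Pool.Agent.H46.KW Pool.KQ Pool.GT7 Pool.GU7 Pool.HZ7 Pool.IA7

private lemma WLJ_e1 (p : ℕ) : 0 < e1 p := by
  unfold e1
  positivity

private lemma WLJ_s3 (p : ℕ) : 0 < s3 p := by
  unfold s3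
  exact div_pos (WLJ_e1 p) (by positivity)

private lemma WLJ_mono {V : Type} {G : SimpleGraph V} {p a : ℕ} {e e' C : ℝ} {W : Finset V}
    {P : Fin (p + 3) → Finset V} {U : Finset V} (h : Str G p a e' C W P U) (he : e' ≤ e) :
    Str G p a e C W P U :=
  { par := h.par
    disU := h.disU
    cov := h.cov
    lo := fun i => le_trans (mul_le_mul_of_nonneg_right (by linarith) (Nat.cast_nonneg _)) (h.lo i)
    hi := fun i => (h.hi i).trans (mul_le_mul_of_nonneg_right (by linarith) (Nat.cast_nonneg _))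
    mis := h.mis
    tot := h.tot
    cU := h.cU
    exc := h.exc }

private lemma WLJ_monoq {V : Type} {G : SimpleGraph V} {p a : ℕ} {e f C C' C'' : ℝ} {W : Finset V}
    {P : Fin (p + 3) → Finset V} {U : Finset V} (h : Stq G p a e f C C' W P U) (hC : C' ≤ C'') :
    Stq G p a e f C C'' W P U :=
  { par := h.par
    disU := h.disU
    cov := h.cov
    lo := h.lo
    hi := h.hi
    mis := h.mis
    tot := h.tot
    cU := h.cU.trans hC }

/-- the size of the neighbourhood -/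
private lemma WLJ_card {b A x C₂ ch : ℝ} (n : ℕ) (hb : 0 < b) (hA : 0 < A) (hx : 0 ≤ x)
    (hC : 0 ≤ C₂) (hch : 1 ≤ ch)
    (h : ch * A ^ (n + 1) ≤ ch * (x / b) ^ (n + 1) + C₂ * A ^ n) :
    b * A ≤ x + b * C₂ := by
  have hy : 0 ≤ x / b := div_nonneg hx hb.le
  have hxy : x = b * (x / b) := by field_simp
  set y : ℝ := x / b with hyd
  have key : A ≤ y + C₂ := by
    by_contra hcon
    have hcon' := lt_of_not_ge hcon
    have hyA : y ≤ A := by linarith
    have h1 : y ^ (n + 1) ≤ y * A ^ n := by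
      rw [pow_succ, mul_comm]
      exact mul_le_mul_of_nonneg_left (pow_le_pow_left₀ hy hyA n) hy
    have h2 : 0 < A ^ n := by positivity
    have h3 : ch * A ^ (n + 1) = ch * (A * A ^ n) := by rw [pow_succ]; ring
    have h4 : ch * y ^ (n + 1) ≤ ch * (y * A ^ n) := mul_le_mul_of_nonneg_left h1 (by linarith)
    have h5 : ch * ((A - y) * A ^ n) ≤ C₂ * A ^ n := by
      have : ch * ((A - y) * A ^ n) = ch * (A * A ^ n) - ch * (y * A ^ n) := by ring
      linarith
    have h6 : C₂ * A ^ n < (A - y) * A ^ n := mul_lt_mul_of_pos_right (by linarith) h2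
    have h7 : 0 ≤ (A - y) * A ^ n := mul_nonneg (by linarith) h2.le
    have h8 : 1 * ((A - y) * A ^ n) ≤ ch * ((A - y) * A ^ n) := mul_le_mul_of_nonneg_right hch h7
    linarith
  have := mul_le_mul_of_nonneg_left key hb.le
  rw [hxy]
  linarith

/-- Row WLJ. -/
theorem wlj_thm (h0 : GCJStmt) (h1 : STCStmt) (h2 : MMCStmt) (h3 : Pool.JB7.REGStmt)
    (h4 : LOJStmt) (h5 : NCJStmt) (h8 : CCK0Stmt) (h6 : TTRStmt) (h7 : ZYGStmt) : WLJStmt := by
  intro p w r hP
  obtain ⟨hZ, hph0, hph1, -, -, -⟩ := h0 p w r hP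
  have hwp := hP.wp
  have hrp := hP.rp
  have hrb := hZ.rb
  have hp0 : (0 : ℝ) ≤ p := Nat.cast_nonneg p
  have hw0 : (0 : ℝ) ≤ w := Nat.cast_nonneg w
  have hr1 : 1 ≤ r := by omega
  have hr0 : (0 : ℝ) < r := by exact_mod_cast hr1
  have hrp' : (r : ℝ) ≤ p := by exact_mod_cast hrp
  have hc1p : 0 < c1 p w := by
    unfold c1
    have : 0 < (p + 2).choose (w + 1) := Nat.choose_pos (by omega)
    exact_mod_cast this
  have hlz : 0 ≤ ltt p w r := by
    unfold ltt
    refine div_nonneg (mul_nonneg (mul_nonneg (by linarith) hc1p.le) (by linarith)) (by linarith)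
  have hs2 := WLJ_s3 p
  have he1 := WLJ_e1 p
  have hphc : 0 < (1 - pt p w r) * c1 p w := mul_pos (by linarith) hc1p
  have hc0 : 0 < min 1 (min ((1 - pt p w r) * c1 p w) (s3 p)) :=
    lt_min one_pos (lt_min hphc hs2)
  set c : ℝ := min 1 (min ((1 - pt p w r) * c1 p w) (s3 p)) with hc
  have hc1 : c ≤ 1 := min_le_left _ _
  have hc2 : c ≤ (1 - pt p w r) * c1 p w := (min_le_right _ _).trans (min_le_left _ _)
  have hc3 : c ≤ s3 p := (min_le_right _ _).trans (min_le_right _ _)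
  refine ⟨c, hc0, hc1, fun C₂ hC₂p => ?_⟩
  have hC₂0 : 0 ≤ C₂ := hC₂p.le
  obtain ⟨C, hC, hSTC⟩ := h1 p w hwp C₂
  obtain ⟨C₁, aM, hMMC⟩ := h2 p w hwp C₂
  refine ⟨C, C₁, hC, fun ε e hε he he8 => ?_⟩
  obtain ⟨f, hf0, hf1, hLOG⟩ := h4 p w r hP C (ε / 2) hC (half_pos hε)
  obtain ⟨CR, hCR, hREG⟩ := h3 p f C hf0 hC
  obtain ⟨K, hK, hNDC⟩ := h5 p w r hP CR hCR
  set Cm : ℝ := max CR (((p : ℝ) + 3) * C₂ + r) with hCm
  obtain ⟨e₀, he₀, he₀', aL, hLOG'⟩ := hLOG Cm (lt_max_of_lt_left hCR)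
  set e' : ℝ := min (min e (e₀ / 2)) (e1 p / 2) with he'
  have he'0 : 0 < e' := lt_min (lt_min he (half_pos he₀)) (half_pos he1)
  have he'e : e' ≤ e := (min_le_left _ _).trans (min_le_left _ _)
  have he'1 : e' ≤ e1 p / 2 := min_le_right _ _
  have he'2 : 2 * e' ≤ e₀ := by
    have : e' ≤ e₀ / 2 := (min_le_left _ _).trans (min_le_right _ _)
    linarith
  obtain ⟨aR, hREG'⟩ := hREG e' he'0 (by linarith)
  obtain ⟨aS, hSTC'⟩ := hSTC e' he'0 (by linarith)
  refine ⟨max (max (max aM aL) (max aR aS)) (max (max 1 ⌈4 * (K * C) / ε⌉₊)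
    ⌈4 * (ltt p w r * C₁) / ε⌉₊), fun a ha => ?_⟩
  intro V _ _ G hG v hdf'
  have haM : a ≥ aM := le_trans (le_max_left _ _) (le_trans (le_max_left _ _)
    (le_trans (le_max_left _ _) ha))
  have haL : a ≥ aL := le_trans (le_max_right _ _) (le_trans (le_max_left _ _)
    (le_trans (le_max_left _ _) ha))
  have haR : a ≥ aR := le_trans (le_max_left _ _) (le_trans (le_max_right _ _)
    (le_trans (le_max_left _ _) ha))
  have haS : a ≥ aS := le_trans (le_max_right _ _) (le_trans (le_max_right _ _)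
    (le_trans (le_max_left _ _) ha))
  have ha1' : 1 ≤ a := le_trans (le_max_left _ _) (le_trans (le_max_left _ _)
    (le_trans (le_max_right _ _) ha))
  have haK : 4 * (K * C) / ε ≤ (a : ℝ) := by
    refine (Nat.le_ceil _).trans ?_
    exact_mod_cast le_trans (le_max_right 1 _) (le_trans (le_max_left _ _)
      (le_trans (le_max_right _ _) ha))
  have haE : 4 * (ltt p w r * C₁) / ε ≤ (a : ℝ) := by
    refine (Nat.le_ceil _).trans ?_
    exact_mod_cast le_trans (le_max_right (max 1 ⌈4 * (K * C) / ε⌉₊) _)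
      (le_trans (le_max_right _ _) ha)
  have ha1 : (1 : ℝ) ≤ a := by exact_mod_cast ha1'
  have ha0 : (0 : ℝ) < a := by linarith
  set W : Finset V := nb G univ v with hW
  have hCB : CB G W (p + 3) := CB.nb (r := p + 3) hG.cb (mem_univ v)
  have hWc : W.card ≤ (p + 3) * a + r := hG.deg v
  have hWc' : W.card ≤ (p + 3) * (a + 1) := by
    have : r ≤ p + 3 := by omega
    calc W.card ≤ (p + 3) * a + r := hWc
      _ ≤ (p + 3) * a + (p + 3) := by omega
      _ = (p + 3) * (a + 1) := by ring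
  have hpow : (0 : ℝ) < (a : ℝ) ^ (p + 3) := by positivity
  have hAw : K * C * (a : ℝ) ^ w ≤ ε / 4 * (a : ℝ) ^ (w + 1) := by
    have g3 : 4 * (K * C) ≤ a * ε := by
      rwa [div_le_iff₀ hε] at haK
    have g4 : (a : ℝ) ^ (w + 1) = (a : ℝ) ^ w * a := pow_succ _ _
    have g5 : 0 ≤ (a : ℝ) ^ w := by positivity
    have g6 : 4 * (K * C) * (a : ℝ) ^ w ≤ a * ε * (a : ℝ) ^ w :=
      mul_le_mul_of_nonneg_right g3 g5
    rw [g4]
    have g7 : ε / 4 * ((a : ℝ) ^ w * a) = a * ε * (a : ℝ) ^ w / 4 := by ring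
    rw [g7]
    linarith
  set A : ℝ := (a : ℝ) ^ (w + 1) with hA
  have hA0 : 0 < A := by positivity
  have hM0 : 0 ≤ Mt p w r a := by
    unfold Mt
    positivity
  have hMb : Mt p w r a * (a : ℝ) ^ (p + 3) = c1 p w * pt p w r * A := by
    unfold Mt
    rw [div_mul_cancel₀ _ hpow.ne']
  have hTT : ((p + 3).choose (w + 2) : ℝ) * (a : ℝ) ^ (w + 2) ≤ TT (p + 3) (w + 2) a r := by
    have := (h6.2.2.1 (p + 3) (w + 2) a r (by omega)).1
    exact_mod_cast this
  have hdfe : df G p w r a W = (TT (p + 3) (w + 2) a r : ℝ) - kc G W (w + 2) := rfl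
  have hk : ((p + 3).choose (w + 2) : ℝ) * (a : ℝ) ^ (w + 2) ≤ kc G W (w + 2) + C₂ * A := by
    rw [hdfe] at hdf'
    linarith
  obtain ⟨P, U, hStr⟩ := hSTC' a haS G W hCB hWc' hk
  have hmm := hMMC a haM G W hCB hWc' hk
  obtain ⟨P', U', hStq, hUU, hPP, hout⟩ := hREG' a haR G W P U hStr
  -- the size of `W`
  have hsize : (((p + 3) * a + r : ℕ) : ℝ) ≤ W.card + Cm := by
    have g1 := h7 G (p + 3) W hCB (w + 2)
    have hch : (1 : ℝ) ≤ ((p + 3).choose (w + 2) : ℝ) := by
      have : 1 ≤ (p + 3).choose (w + 2) := Nat.choose_pos (by omega)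
      exact_mod_cast this
    have g2 : (W.card : ℝ) / ((p + 3 : ℕ) : ℝ) = (W.card : ℝ) / ((p : ℝ) + 3) := by
      push_cast
      rfl
    rw [g2] at g1
    have g3 := WLJ_card (b := (p : ℝ) + 3) (A := a) (x := W.card) (C₂ := C₂) (w + 1)
      (by linarith) ha0 (Nat.cast_nonneg _) hC₂0 hch (by
        show ((p + 3).choose (w + 2) : ℝ) * (a : ℝ) ^ (w + 2) ≤
          ((p + 3).choose (w + 2) : ℝ) * ((W.card : ℝ) / ((p : ℝ) + 3)) ^ (w + 2) +
            C₂ * (a : ℝ) ^ (w + 1)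
        linarith)
    have g4 : ((p : ℝ) + 3) * C₂ + r ≤ Cm := le_max_right _ _
    push_cast
    linarith
  have hloc := hLOG' a haL G (2 * e') W P' U' U (by linarith) he'2
    (WLJ_monoq hStq (le_max_left _ _)) hUU hout hCB hWc hsize
  -- the number of cliques
  have hkb : ltt p w r * A - ε / 4 * A ≤
      Mt p w r a * ((r : ℝ) / ((p : ℝ) + 4)) * kc G W (p + 3) := by
    have g1 : (a : ℝ) ^ (p + 4) ≤ (a + C₁) * kc G W (p + 3) := by exact_mod_cast hmm
    have hC₁ : (0 : ℝ) ≤ C₁ := Nat.cast_nonneg _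
    have g2 : Mt p w r a * ((r : ℝ) / ((p : ℝ) + 4)) * (a : ℝ) ^ (p + 3) = ltt p w r * A := by
      calc Mt p w r a * ((r : ℝ) / ((p : ℝ) + 4)) * (a : ℝ) ^ (p + 3)
          = (Mt p w r a * (a : ℝ) ^ (p + 3)) * ((r : ℝ) / ((p : ℝ) + 4)) := by ring
        _ = ltt p w r * A := by
            rw [hMb]
            unfold ltt pt
            field_simp
    set κ : ℝ := (kc G W (p + 3) : ℝ) with hκ
    set ν : ℝ := Mt p w r a * ((r : ℝ) / ((p : ℝ) + 4)) with hν
    have hν0 : 0 ≤ ν := by positivity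
    have g3 : (ltt p w r * A) * a ≤ (a + C₁) * (ν * κ) := by
      calc (ltt p w r * A) * a = ν * ((a : ℝ) ^ (p + 3) * a) := by rw [← g2]; ring
        _ = ν * (a : ℝ) ^ (p + 4) := by rw [← pow_succ]
        _ ≤ ν * ((a + C₁) * κ) := mul_le_mul_of_nonneg_left g1 hν0
        _ = _ := by ring
    have g4 : 4 * (ltt p w r * C₁) ≤ a * ε := by
      rwa [div_le_iff₀ hε] at haE
    by_contra hcon
    have hcon' := lt_of_not_ge hcon
    have g5 : ((a : ℝ) + C₁) * (ν * κ) < (a + C₁) * (ltt p w r * A - ε / 4 * A) :=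
      mul_lt_mul_of_pos_left hcon' (by linarith)
    have g6 : ((a : ℝ) + C₁) * (ltt p w r * A - ε / 4 * A) =
        (ltt p w r * A) * a + (ltt p w r * C₁) * A - ε / 4 * a * A - C₁ * (ε / 4 * A) := by ring
    have g7 : (ltt p w r * C₁) * A ≤ (a * ε / 4) * A :=
      mul_le_mul_of_nonneg_right (by linarith) hA0.le
    have g8 : 0 ≤ C₁ * (ε / 4 * A) := by positivity
    have g9 : (a * ε / 4) * A = ε / 4 * a * A := by ring
    linarith
  have hdebt : ∑ z ∈ U, ndj G p w r a (un P') z ≤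
      ∑ z ∈ U, ndj G p w r a (un P) z + ε / 4 * A := by
    have hPr : Pr0 p w r := ⟨hwp, hr1, hrp⟩
    have hdiff : ((un P \ un P').card : ℝ) ≤ CR := by
      refine le_trans ?_ hStq.cU
      have hsub : un P \ un P' ⊆ U' := by
        intro x hx
        rw [mem_sdiff] at hx
        have hxP : ∃ i, x ∈ P i := by
          have := hx.1
          unfold un at this
          simpa using this
        have hxW : x ∈ W := (hStr.cov x).2 (Or.inr hxP)
        rcases (hStq.cov x).1 hxW with h | ⟨i, hi⟩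
        · exact h
        · exact absurd (by unfold un; simpa using ⟨i, hi⟩) hx.2
      exact_mod_cast Finset.card_le_card hsub
    have hPc : ∀ i, (P i).card ≤ 2 * a := by
      intro i
      have g1 := hStr.hi i
      have g2 : (1 + e') * (a : ℝ) ≤ 2 * a := mul_le_mul_of_nonneg_right (by linarith) ha0.le
      have g3 : ((P i).card : ℝ) ≤ ((2 * a : ℕ) : ℝ) := by
        push_cast
        linarith
      exact_mod_cast g3
    have hone : ∀ z ∈ U, ndj G p w r a (un P') z ≤ ndj G p w r a (un P) z + K * (a : ℝ) ^ w :=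
      fun z hz =>
        hNDC a ha1' G P P' z hPP hPc hdiff
          (h8 G p w r a e' C W P U hPr hStr he'0.le he'1 hCB z hz).1
    have g1 : ∑ z ∈ U, ndj G p w r a (un P') z ≤
        ∑ z ∈ U, (ndj G p w r a (un P) z + K * (a : ℝ) ^ w) :=
      Finset.sum_le_sum hone
    rw [Finset.sum_add_distrib, Finset.sum_const, nsmul_eq_mul] at g1
    have g2 : (U.card : ℝ) * (K * (a : ℝ) ^ w) ≤ K * C * (a : ℝ) ^ w := by
      have g5 : 0 ≤ K * (a : ℝ) ^ w := by positivity
      calc (U.card : ℝ) * (K * (a : ℝ) ^ w) ≤ C * (K * (a : ℝ) ^ w) :=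
            mul_le_mul_of_nonneg_right hStr.cU g5
        _ = K * C * (a : ℝ) ^ w := by ring
    linarith
  have hdel : 0 ≤ (((p + 3) * a + r : ℕ) : ℝ) - W.card := by
    have : (W.card : ℝ) ≤ (((p + 3) * a + r : ℕ) : ℝ) := by exact_mod_cast hWc
    linarith
  have hphA : 0 ≤ (1 - pt p w r) * c1 p w * A := mul_nonneg hphc.le hA0.le
  have hdel2 : 0 ≤ (1 - pt p w r) * c1 p w * A * ((((p + 3) * a + r : ℕ) : ℝ) - W.card) :=
    mul_nonneg hphA hdel
  have hUn : 0 ≤ s3 p * A * U.card := by positivity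
  have hbon : (if U = ∅ ∧ W.card = (p + 3) * a + r then 0 else c * A) ≤
      (1 - pt p w r) * c1 p w * A * ((((p + 3) * a + r : ℕ) : ℝ) - W.card) +
        s3 p * A * U.card := by
    split_ifs with hif
    · linarith
    · by_cases hcard : W.card = (p + 3) * a + r
      · have hU : U ≠ ∅ := fun h => hif ⟨h, hcard⟩
        have hU1 : (1 : ℝ) ≤ U.card := by
          exact_mod_cast Finset.card_pos.2 (Finset.nonempty_iff_ne_empty.2 hU)
        have g2 : s3 p * A * 1 ≤ s3 p * A * U.card :=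
          mul_le_mul_of_nonneg_left hU1 (mul_pos hs2 hA0).le
        have g3 : c * A ≤ s3 p * A := mul_le_mul_of_nonneg_right hc3 hA0.le
        linarith
      · have g0 : (1 : ℝ) ≤ (((p + 3) * a + r : ℕ) : ℝ) - W.card := by
          have : W.card + 1 ≤ (p + 3) * a + r := by omega
          have : ((W.card + 1 : ℕ) : ℝ) ≤ (((p + 3) * a + r : ℕ) : ℝ) := by exact_mod_cast this
          rw [Nat.cast_add, Nat.cast_one] at this
          linarith
        have g1 : (1 - pt p w r) * c1 p w * A * 1 ≤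
            (1 - pt p w r) * c1 p w * A * ((((p + 3) * a + r : ℕ) : ℝ) - W.card) :=
          mul_le_mul_of_nonneg_left g0 hphA
        have g3 : c * A ≤ (1 - pt p w r) * c1 p w * A := mul_le_mul_of_nonneg_right hc2 hA0.le
        linarith
  refine ⟨P, U, WLJ_mono hStr he'e, hmm, ?_⟩
  have hfin : Mt p w r a * ∑ L ∈ clq G W (p + 3), min (r : ℝ) (XX G p r a W L) -
        Mt p w r a * ((r : ℝ) / ((p : ℝ) + 4)) * kc G W (p + 3) + ltt p w r * A +
        ((1 - pt p w r) * c1 p w * A * ((((p + 3) * a + r : ℕ) : ℝ) - W.card) +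
          s3 p * A * U.card) ≤
      df G p w r a W + ∑ z ∈ U, ndj G p w r a (un P) z + ε * A := by
    linarith
  linarith

end Pool.KC7
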